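import Pool.Agent.Helper80.AD.GoalsA

/-!
# Project AD: packet EXA
-/

set_option autoImplicit false

open Filter Topology

noncomputable section

namespace Pool.Agent.Helper13.AD

open Pool.Agent.Helper80.AD

section aux

variable {B : Type}

theorem all_slots {n : ℕ} (sq : B → B) (D : (Fin n → B) → ℝ)
    (hD : ∀ z l b, D (Function.update z l (sq b)) = 2 * D (Function.update z l b))
    (Z : Fin n → B) : D (fun s => sq (Z s)) = 2 ^ n * D Z := by
  classical
  have key : ∀ A : Finset (Fin n),
      D (fun s => if s ∈ A then sq (Z s) else Z s) = 2 ^ A.card * D Z := by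
    intro A
    induction A using Finset.induction_on with
    | empty => simp
    | insert l A hl ih =>
      have e1 : (fun s => if s ∈ insert l A then sq (Z s) else Z s) =
          Function.update (fun s => if s ∈ A then sq (Z s) else Z s) l (sq (Z l)) := by
        funext s
        by_cases hs : s = l
        · subst hs; simp
        · simp [hs]
      have e2 : Function.update (fun s => if s ∈ A then sq (Z s) else Z s) l (Z l) =
          (fun s => if s ∈ A then sq (Z s) else Z s) := by
        funext s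
        by_cases hs : s = l
        · subst hs; simp [hl]
        · simp [hs]
      rw [e1, hD, e2, ih, Finset.card_insert_of_notMem hl, pow_succ]
      ring
  have := key Finset.univ
  simpa using this

theorem all_slots_iter {n : ℕ} (sq : B → B) (D : (Fin n → B) → ℝ)
    (hD : ∀ z l b, D (Function.update z l (sq b)) = 2 * D (Function.update z l b))
    (Z : Fin n → B) (j : ℕ) : D (fun s => sq^[j] (Z s)) = (2 ^ n) ^ j * D Z := by
  induction j with
  | zero => simp
  | succ j ih =>
    have e : (fun s => sq^[j + 1] (Z s)) = fun s => sq ((fun s => sq^[j] (Z s)) s) := by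
      funext s
      exact Function.iterate_succ_apply' sq j (Z s)
    rw [e, all_slots sq D hD, ih, pow_succ]
    ring

/-- the sum of the degrees of the tuples with one entry removed -/
def SS {k : ℕ} (D : (Fin k → B) → ℝ) (Y : Fin (k + 1) → B) : ℝ :=
  ∑ i : Fin (k + 1), D (fun s => Y (i.succAbove s))

theorem SS_update {k : ℕ} (sq : B → B) (D : (Fin k → B) → ℝ) (hD1 : ∀ Z, 1 ≤ D Z)
    (hD : ∀ z l b, D (Function.update z l (sq b)) = 2 * D (Function.update z l b))
    (Y : Fin (k + 1) → B) (i : Fin (k + 1)) :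
    SS D (Function.update Y i (sq (Y i))) ≤ 2 * SS D Y := by
  unfold SS
  rw [Finset.mul_sum]
  refine Finset.sum_le_sum fun i' _ => ?_
  by_cases h : i' = i
  · subst h
    have e : (fun s => Function.update Y i' (sq (Y i')) (i'.succAbove s)) =
        fun s => Y (i'.succAbove s) := by
      funext s
      rw [Function.update_of_ne (Fin.succAbove_ne i' s)]
    rw [e]
    have := hD1 (fun s => Y (i'.succAbove s))
    linarith
  · obtain ⟨l, hl⟩ := Fin.exists_succAbove_eq (x := i) (y := i') (fun h' => h h'.symm)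
    have e : (fun s => Function.update Y i (sq (Y i)) (i'.succAbove s)) =
        Function.update (fun s => Y (i'.succAbove s)) l (sq (Y i)) := by
      funext s
      by_cases hs : s = l
      · subst hs
        rw [hl]
        simp
      · rw [Function.update_of_ne hs, Function.update_of_ne]
        intro h'
        exact hs (Fin.succAbove_right_injective (h'.trans hl.symm))
    have e2 : Function.update (fun s => Y (i'.succAbove s)) l (Y i) =
        fun s => Y (i'.succAbove s) := by
      funext s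
      by_cases hs : s = l
      · subst hs
        rw [Function.update_self, hl]
      · rw [Function.update_of_ne hs]
    rw [e, hD, e2]

theorem perm_ex {k : ℕ} (σ : Equiv.Perm (Fin (k + 1))) (i : Fin (k + 1)) :
    ∃ π : Equiv.Perm (Fin k), ∀ s, σ (i.succAbove s) = (σ i).succAbove (π s) := by
  have h : ∀ s, ∃ t, (σ i).succAbove t = σ (i.succAbove s) := fun s =>
    Fin.exists_succAbove_eq (fun h' => Fin.succAbove_ne i s (σ.injective h'))
  choose f hf using h
  have hinj : Function.Injective f := by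
    intro s t hst
    have h1 : σ (i.succAbove s) = σ (i.succAbove t) := by
      rw [← hf, ← hf, hst]
    exact Fin.succAbove_right_injective (σ.injective h1)
  exact ⟨Equiv.ofBijective f ⟨hinj, Finite.surjective_of_injective hinj⟩, fun s => (hf s).symm⟩

theorem SS_perm {k : ℕ} (D : (Fin k → B) → ℝ)
    (hs : ∀ (σ : Equiv.Perm (Fin k)) (Z : Fin k → B), D (Z ∘ σ) = D Z)
    (σ : Equiv.Perm (Fin (k + 1))) (Y : Fin (k + 1) → B) : SS D (Y ∘ σ) = SS D Y := by
  unfold SS
  rw [← Equiv.sum_comp σ (fun i => D (fun s => Y (i.succAbove s)))]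
  refine Finset.sum_congr rfl fun i _ => ?_
  obtain ⟨π, hπ⟩ := perm_ex σ i
  have e : (fun s => (Y ∘ σ) (i.succAbove s)) = (fun s => Y ((σ i).succAbove s)) ∘ π := by
    funext s
    simp only [Function.comp_apply]
    rw [hπ]
  rw [e, hs]

end aux

theorem exa : S_EXA := by
  intro k B P h cst Pr sq E₀ D G H
  classical
  -- degrees
  have hD : ∀ (z : Fin k → B) l b,
      D (Function.update z l (sq b)) = 2 * D (Function.update z l b) := by
    intro z l b
    have h1 := H.deg 1 ![1, -2] ![sq b, b] 0 0 (zero_mem _) (by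
      intro v
      simp [Fin.sum_univ_two, H.sqh]) z l
    have h2 := H.deg 1 ![-1, 2] ![sq b, b] 0 0 (zero_mem _) (by
      intro v
      simp [Fin.sum_univ_two, H.sqh]) z l
    simp [Fin.sum_univ_two] at h1 h2
    linarith
  have hDp : ∀ Z, 0 < D Z := fun Z => lt_of_lt_of_le one_pos (H.D1 Z)
  have hSp : ∀ Y, 0 ≤ SS D Y := fun Y => Finset.sum_nonneg fun i _ => (hDp _).le
  -- one slot, slot 0
  obtain ⟨C1, hC1, hE1⟩ := H.est 1 ![1, -2]
  obtain ⟨C1', hC1', hE1'⟩ := H.est 1 ![-1, 2]
  have hScons : ∀ (b : B) (z : Fin k → B), SS D (Fin.cons b z : Fin (k + 1) → B) =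
      D z + ∑ l : Fin k, D (fun s => (Fin.cons b z : Fin (k + 1) → B) (l.succ.succAbove s)) := by
    intro b z
    unfold SS
    rw [Fin.sum_univ_succ]
    simp
  have hslot0 : ∀ (b : B) (z : Fin k → B),
      |E₀ (Fin.cons (sq b) z : Fin (k + 1) → B) - 2 * E₀ (Fin.cons b z : Fin (k + 1) → B)| ≤
        3 * (C1 + C1') * SS D (Fin.cons b z : Fin (k + 1) → B) := by
    intro b z
    have h1 := hE1 ![sq b, b] 0 0 (zero_mem _) (by
      intro v
      simp [Fin.sum_univ_two, H.sqh]) z
    have h2 := hE1' ![sq b, b] 0 0 (zero_mem _) (by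
      intro v
      simp [Fin.sum_univ_two, H.sqh]) z
    have h3 : SS D (Fin.cons (sq b) z : Fin (k + 1) → B) ≤
        2 * SS D (Fin.cons b z : Fin (k + 1) → B) := by
      have := SS_update sq D H.D1 hD (Fin.cons b z : Fin (k + 1) → B) 0
      simpa [Fin.update_cons_zero] using this
    have h4 := hScons (sq b) z
    have h5 := hScons b z
    have e2 : ∀ f : Fin (1 + 1) → ℝ, ∑ i, f i = f 0 + f 1 := fun f => Fin.sum_univ_two f
    rw [e2, e2] at h1 h2
    simp only [Matrix.cons_val_zero, Matrix.cons_val_one, Int.cast_zero,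
      zero_mul, zero_add, Int.cast_neg, Int.cast_one, Int.cast_ofNat, one_mul] at h1 h2
    set X1 := ∑ l : Fin k, D (fun s => (Fin.cons (sq b) z : Fin (k + 1) → B) (l.succ.succAbove s))
      with hX1
    set X2 := ∑ l : Fin k, D (fun s => (Fin.cons b z : Fin (k + 1) → B) (l.succ.succAbove s))
      with hX2
    have hz := hDp z
    have h6 : D z + (X1 + X2) ≤ 3 * SS D (Fin.cons b z : Fin (k + 1) → B) := by linarith
    have h7 : C1 * (D z + (X1 + X2)) ≤ C1 * (3 * SS D (Fin.cons b z : Fin (k + 1) → B)) :=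
      mul_le_mul_of_nonneg_left h6 hC1
    have h8 : C1' * (D z + (X1 + X2)) ≤ C1' * (3 * SS D (Fin.cons b z : Fin (k + 1) → B)) :=
      mul_le_mul_of_nonneg_left h6 hC1'
    have hS := hSp (Fin.cons b z : Fin (k + 1) → B)
    have h9 : 0 ≤ C1 * SS D (Fin.cons b z : Fin (k + 1) → B) := mul_nonneg hC1 hS
    have h10 : 0 ≤ C1' * SS D (Fin.cons b z : Fin (k + 1) → B) := mul_nonneg hC1' hS
    rw [abs_le]
    constructor <;> nlinarith
  set C2 : ℝ := 3 * (C1 + C1') with hC2
  have hC2n : 0 ≤ C2 := by positivity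
  have hslot : ∀ (Y : Fin (k + 1) → B) (i : Fin (k + 1)),
      |E₀ (Function.update Y i (sq (Y i))) - 2 * E₀ Y| ≤ C2 * SS D Y := by
    intro Y i
    set σ : Equiv.Perm (Fin (k + 1)) := Equiv.swap 0 i with hσ
    have e1 : Function.update Y i (sq (Y i)) ∘ σ =
        (Fin.cons (sq ((Y ∘ σ) 0)) (Fin.tail (Y ∘ σ)) : Fin (k + 1) → B) := by
      funext s
      refine Fin.cases ?_ (fun s => ?_) s
      · simp [hσ]
      · simp only [Function.comp_apply, Fin.cons_succ, Fin.tail]
        rw [Function.update_of_ne]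
        intro h'
        have h2 : σ s.succ = σ 0 := by
          rw [h', hσ, Equiv.swap_apply_left]
        exact Fin.succ_ne_zero s (σ.injective h2)
    have e2 : (Fin.cons ((Y ∘ σ) 0) (Fin.tail (Y ∘ σ)) : Fin (k + 1) → B) = Y ∘ σ :=
      Fin.cons_self_tail _
    have h1 := hslot0 ((Y ∘ σ) 0) (Fin.tail (Y ∘ σ))
    rw [← e1, e2, H.symE, H.symE, SS_perm D H.symD] at h1
    exact h1
  -- all slots
  have hall : ∀ (Y : Fin (k + 1) → B) (A : Finset (Fin (k + 1))),
      SS D (fun s => if s ∈ A then sq (Y s) else Y s) ≤ 2 ^ A.card * SS D Y ∧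
      |E₀ (fun s => if s ∈ A then sq (Y s) else Y s) - 2 ^ A.card * E₀ Y| ≤
        (A.card * 2 ^ A.card * C2) * SS D Y := by
    intro Y A
    induction A using Finset.induction_on with
    | empty => simp
    | insert l A hl ih =>
      set YA : Fin (k + 1) → B := fun s => if s ∈ A then sq (Y s) else Y s with hYA
      have hYl : YA l = Y l := by simp [hYA, hl]
      have e1 : (fun s => if s ∈ insert l A then sq (Y s) else Y s) =
          Function.update YA l (sq (YA l)) := by
        funext s
        by_cases hs : s = l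
        · subst hs; simp [hYl]
        · simp [hs, hYA]
      rw [e1, Finset.card_insert_of_notMem hl]
      obtain ⟨ih1, ih2⟩ := ih
      have h1 := SS_update sq D H.D1 hD YA l
      have h2 := hslot YA l
      have hS := hSp Y
      refine ⟨?_, ?_⟩
      · rw [pow_succ]
        linarith
      · have h3 : E₀ (Function.update YA l (sq (YA l))) - 2 ^ (A.card + 1) * E₀ Y =
            (E₀ (Function.update YA l (sq (YA l))) - 2 * E₀ YA) +
              2 * (E₀ YA - 2 ^ A.card * E₀ Y) := by
          rw [pow_succ]; ring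
        rw [h3]
        refine (abs_add_le _ _).trans ?_
        rw [abs_mul, abs_two]
        have h4 : C2 * SS D YA ≤ C2 * (2 ^ A.card * SS D Y) := mul_le_mul_of_nonneg_left ih1 hC2n
        have h5 : (0 : ℝ) ≤ 2 ^ A.card * C2 * SS D Y := by positivity
        push_cast
        rw [pow_succ]
        nlinarith
  set C3 : ℝ := ((k + 1 : ℕ) : ℝ) * 2 ^ (k + 1) * C2 with hC3
  have hC3n : 0 ≤ C3 := by positivity
  have hstep : ∀ Y : Fin (k + 1) → B,
      |E₀ (fun s => sq (Y s)) - 2 ^ (k + 1) * E₀ Y| ≤ C3 * SS D Y := by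
    intro Y
    have := (hall Y Finset.univ).2
    rw [hC3]
    simpa using this
  -- iterates
  have hSit : ∀ (Y : Fin (k + 1) → B) (j : ℕ),
      SS D (fun s => sq^[j] (Y s)) = (2 ^ k) ^ j * SS D Y := by
    intro Y j
    unfold SS
    rw [Finset.mul_sum]
    refine Finset.sum_congr rfl fun i _ => ?_
    exact all_slots_iter sq D hD (fun s => Y (i.succAbove s)) j
  set e : (Fin (k + 1) → B) → ℕ → ℝ := fun Y j =>
    E₀ (fun s => sq^[j] (Y s)) / (2 ^ (k + 1)) ^ j with he
  have hgeo : ∀ (Y : Fin (k + 1) → B) (j : ℕ), dist (e Y j) (e Y (j + 1)) ≤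
      (C3 * SS D Y) * (1 / 2) ^ j := by
    intro Y j
    have h1 := hstep (fun s => sq^[j] (Y s))
    rw [hSit] at h1
    have e1 : (fun s => sq ((fun s => sq^[j] (Y s)) s)) = fun s => sq^[j + 1] (Y s) := by
      funext s
      exact (Function.iterate_succ_apply' sq j (Y s)).symm
    rw [e1] at h1
    rw [dist_comm, Real.dist_eq]
    have hp : (0 : ℝ) < (2 ^ (k + 1)) ^ (j + 1) := by positivity
    have h2 : e Y (j + 1) - e Y j =
        (E₀ (fun s => sq^[j + 1] (Y s)) - 2 ^ (k + 1) * E₀ (fun s => sq^[j] (Y s))) /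
          (2 ^ (k + 1)) ^ (j + 1) := by
      simp only [he]
      rw [pow_succ]
      field_simp
    rw [h2, abs_div, abs_of_pos hp, div_le_iff₀ hp]
    refine h1.trans ?_
    have h3 : ((2 : ℝ) ^ k) ^ j ≤ (1 / 2) ^ j * (2 ^ (k + 1)) ^ (j + 1) := by
      have h4 : (1 / 2 : ℝ) ^ j * (2 ^ (k + 1)) ^ (j + 1) = (2 ^ k) ^ j * 2 ^ (k + 1) := by
        rw [pow_succ (2 ^ (k + 1) : ℝ) j, ← mul_assoc, ← mul_pow]
        congr 2
        rw [pow_succ]
        ring
      rw [h4]
      exact le_mul_of_one_le_right (by positivity) (one_le_pow₀ (by norm_num))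
    have h5 : 0 ≤ C3 * SS D Y := mul_nonneg hC3n (hSp Y)
    calc C3 * ((2 ^ k) ^ j * SS D Y) = (C3 * SS D Y) * (2 ^ k) ^ j := by ring
      _ ≤ (C3 * SS D Y) * ((1 / 2) ^ j * (2 ^ (k + 1)) ^ (j + 1)) :=
        mul_le_mul_of_nonneg_left h3 h5
      _ = _ := by ring
  have hlim : ∀ Y : Fin (k + 1) → B, ∃ x : ℝ, Tendsto (e Y) atTop (𝓝 x) := fun Y =>
    cauchySeq_tendsto_of_complete
      (cauchySeq_of_le_geometric (1 / 2) (C3 * SS D Y) (by norm_num) (hgeo Y))
  choose E hE using hlim
  have he0 : ∀ Y, e Y 0 = E₀ Y := by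
    intro Y
    simp [he]
  refine ⟨E, 2 * C3, ?_⟩
  refine
    { hn := H.hn
      cn := H.cn
      Gn := H.Gn
      C0 := by positivity
      symE := ?_
      symD := H.symD
      E0 := ?_
      D1 := H.D1
      cmp := ?_
      pos := ?_
      deg := H.deg }
  · intro σ Y
    refine tendsto_nhds_unique (hE (Y ∘ σ)) ?_
    have : e (Y ∘ σ) = e Y := by
      funext j
      simp only [he]
      have e2 : (fun s => sq^[j] ((Y ∘ σ) s)) = (fun s => sq^[j] (Y s)) ∘ σ := rfl
      rw [e2, H.symE]
    rw [this]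
    exact hE Y
  · intro Y
    refine ge_of_tendsto' (hE Y) fun j => ?_
    exact div_nonneg (H.E0 _) (by positivity)
  · intro Y
    have h1 := dist_le_of_le_geometric_of_tendsto₀ (1 / 2) (C3 * SS D Y) (by norm_num)
      (hgeo Y) (hE Y)
    rw [he0, dist_comm, Real.dist_eq] at h1
    refine h1.trans (le_of_eq ?_)
    unfold SS
    ring
  · intro m a b t p hp hineq z
    obtain ⟨C, hC, hest⟩ := H.est m a
    have hhit : ∀ (j : ℕ) (b : B) (v : P), h (sq^[j] b) v = 2 ^ j * h b v := by
      intro j b v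
      induction j with
      | zero => simp
      | succ j ih => rw [Function.iterate_succ_apply', H.sqh, ih, pow_succ]; ring
    have hcons : ∀ (j : ℕ) (b : B), (Fin.cons (sq^[j] b) (fun s => sq^[j] (z s)) : Fin (k + 1) → B)
        = fun s => sq^[j] ((Fin.cons b z : Fin (k + 1) → B) s) := by
      intro j b
      funext s
      refine Fin.cases ?_ (fun s => ?_) s <;> simp
    set Kc : ℝ := C * (D z + ∑ i, ∑ l : Fin k,
        D (fun s => (Fin.cons (b i) z : Fin (k + 1) → B) (l.succ.succAbove s))) with hKc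
    have hj : ∀ j : ℕ, -((t : ℝ) * G * D z) - Kc * (1 / 2) ^ j ≤
        ∑ i, (a i : ℝ) * e (Fin.cons (b i) z : Fin (k + 1) → B) j := by
      intro j
      have h1 := hest (fun i => sq^[j] (b i)) (2 ^ j * t) ((2 ^ j : ℕ) • p)
        (Pr.nsmul_mem hp _) (by
          intro v
          have h2 := hineq v
          have h3 : ∑ i, (a i : ℝ) * h (sq^[j] (b i)) v = 2 ^ j * ∑ i, (a i : ℝ) * h (b i) v := by
            rw [Finset.mul_sum]
            refine Finset.sum_congr rfl fun i _ => ?_
            rw [hhit]; ring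
          rw [h3]
          simp only [Pi.smul_apply, nsmul_eq_mul, Nat.cast_pow, Nat.cast_ofNat, Int.cast_mul,
            Int.cast_pow, Int.cast_ofNat]
          have h4 : (0 : ℝ) ≤ 2 ^ j := by positivity
          nlinarith [mul_le_mul_of_nonneg_left h2 h4]) (fun s => sq^[j] (z s))
      simp only [hcons] at h1
      have h5 : D (fun s => sq^[j] (z s)) = (2 ^ k) ^ j * D z := all_slots_iter sq D hD z j
      have h6 : ∀ (i : Fin (m + 1)) (l : Fin k),
          D (fun s => sq^[j] ((Fin.cons (b i) z : Fin (k + 1) → B) (l.succ.succAbove s))) =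
            (2 ^ k) ^ j *
              D (fun s => (Fin.cons (b i) z : Fin (k + 1) → B) (l.succ.succAbove s)) := fun i l =>
        all_slots_iter sq D hD
          (fun s => (Fin.cons (b i) z : Fin (k + 1) → B) (l.succ.succAbove s)) j
      simp only [h5, h6, ← Finset.mul_sum] at h1
      have hp2 : (0 : ℝ) < (2 ^ (k + 1)) ^ j := by positivity
      have h7 : ∑ i, (a i : ℝ) * e (Fin.cons (b i) z : Fin (k + 1) → B) j =
          (∑ i, (a i : ℝ) * E₀ (fun s => sq^[j] ((Fin.cons (b i) z : Fin (k + 1) → B) s))) /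
            (2 ^ (k + 1)) ^ j := by
        rw [Finset.sum_div]
        refine Finset.sum_congr rfl fun i _ => ?_
        simp only [he]
        ring
      rw [h7, le_div_iff₀ hp2]
      refine le_trans (le_of_eq ?_) h1
      have h8 : ((2 : ℝ) ^ (k + 1)) ^ j = (2 ^ k) ^ j * 2 ^ j := by
        rw [← mul_pow, ← pow_succ]
      have h9 : (1 / 2 : ℝ) ^ j * 2 ^ j = 1 := by
        rw [← mul_pow]; norm_num
      rw [h8, hKc]
      push_cast
      linear_combination (-(C * (D z + ∑ i, ∑ l : Fin k,
        D (fun s => (Fin.cons (b i) z : Fin (k + 1) → B) (l.succ.succAbove s)))) *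
          (2 ^ k) ^ j) * h9
    have hl1 : Tendsto (fun j : ℕ => -((t : ℝ) * G * D z) - Kc * (1 / 2) ^ j) atTop
        (𝓝 (-((t : ℝ) * G * D z) - Kc * 0)) :=
      tendsto_const_nhds.sub (tendsto_const_nhds.mul
        (tendsto_pow_atTop_nhds_zero_of_lt_one (by norm_num) (by norm_num)))
    have hl2 : Tendsto (fun j : ℕ => ∑ i, (a i : ℝ) * e (Fin.cons (b i) z : Fin (k + 1) → B) j)
        atTop (𝓝 (∑ i, (a i : ℝ) * E (Fin.cons (b i) z : Fin (k + 1) → B))) :=
      tendsto_finsetSum _ fun i _ => tendsto_const_nhds.mul (hE _)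
    have h10 := le_of_tendsto_of_tendsto' hl1 hl2 hj
    linarith

end Pool.Agent.Helper13.AD
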